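import Pool.Agent.Helper93.WC.St

/-!
# Project WC (helper93), module CN2: pure arithmetic, harmonic sum
-/

set_option autoImplicit false

open Polynomial Helper62.Weber Pool.Agent.Helper93.WC

namespace Pool.Agent.Helper27.WC

theorem geo (t : ℕ) : ∑ i ∈ Finset.range t, 6 * 2 ^ i + 6 = 6 * 2 ^ t := by
  induction t with
  | zero => simp
  | succ t ih => rw [Finset.sum_range_succ, pow_succ]; omega

theorem size_bound (t : ℕ) (ht : 3 ≤ t) : (t + 3) * 2 ^ (t - 1) + 1 ≤ 4 ^ t := by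
  induction t, ht using Nat.le_induction with
  | base => norm_num
  | succ t ht ih =>
    obtain ⟨u, rfl⟩ : ∃ u, t = u + 1 := ⟨t - 1, by omega⟩
    simp only [Nat.add_sub_cancel] at ih ⊢
    rw [pow_succ 2 u, pow_succ 4 (u + 1)]
    have h1 : 1 ≤ 2 ^ u := Nat.one_le_two_pow
    nlinarith

theorem cCN2 : CN2 := by
  intro t ht c H1 H2 H3 N
  set A : ℕ := (t + 3) * 2 ^ (t - 1) with hA
  have hsix : t + 3 ≤ 6 * (t - 2) := by omega
  have hpos : 0 < t - 2 := by omega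
  have hpow : 2 ^ t = 2 * 2 ^ (t - 1) := by
    rw [← pow_succ']; congr 1; omega
  -- reduction to a large interval
  have h0 : ∑ n ∈ Finset.Icc 1 N, c n ≤ ∑ n ∈ Finset.Ico 1 (2 * t + 1 + A), c n := by
    refine Finset.sum_le_sum_of_ne_zero fun n hn hc => ?_
    rw [Finset.mem_Icc] at hn
    rw [Finset.mem_Ico]
    refine ⟨hn.1, ?_⟩
    by_contra hlt
    have hn2 : 2 * t < n := by omega
    have h := H3 n hn2
    have h1 : A < 2 * n + 3 - 4 * t := by omega
    have h2 : 2 * n + 3 - 4 * t ≤ (2 * n + 3 - 4 * t) * c n :=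
      Nat.le_mul_of_pos_right _ (Nat.pos_of_ne_zero hc)
    omega
  have hsplit : ∑ n ∈ Finset.Ico 1 (2 * t + 1 + A), c n =
      ∑ n ∈ Finset.Ico 1 (t + 1), c n + ∑ n ∈ Finset.Ico (t + 1) (2 * t + 1), c n +
        ∑ n ∈ Finset.Ico (2 * t + 1) (2 * t + 1 + A), c n := by
    rw [Finset.sum_Ico_consecutive _ (by omega) (by omega),
      Finset.sum_Ico_consecutive _ (by omega) (by omega)]
  have S1 : ∑ n ∈ Finset.Ico 1 (t + 1), c n ≤ 6 * 2 ^ t := by
    rw [Finset.sum_Ico_eq_sum_range, Nat.add_sub_cancel]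
    refine le_trans (Finset.sum_le_sum (g := fun i => 6 * 2 ^ i) fun i hi => ?_)
      (by have := geo t; omega)
    rw [Finset.mem_range] at hi
    have h := H1 (1 + i) (by omega) (by omega)
    rw [show 1 + i - 1 = i by omega] at h
    have h2 : (1 + i + 3) * 2 ^ i ≤ (6 * (t - 2)) * 2 ^ i := Nat.mul_le_mul_right _ (by omega)
    have h3 : (t - 2) * c (1 + i) ≤ (t - 2) * (6 * 2 ^ i) := by
      refine (h.trans h2).trans (le_of_eq (by ring))
    exact Nat.le_of_mul_le_mul_left h3 hpos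
  have S2 : ∑ n ∈ Finset.Ico (t + 1) (2 * t + 1), c n ≤ t * (3 * 2 ^ t) := by
    refine le_trans (Finset.sum_le_card_nsmul _ _ (3 * 2 ^ t) fun n hn => ?_) ?_
    · rw [Finset.mem_Ico] at hn
      have h := H2 n (by omega)
      have h2 : (t + 3) * 2 ^ (t - 1) ≤ (6 * (t - 2)) * 2 ^ (t - 1) :=
        Nat.mul_le_mul_right _ hsix
      have h3 : (t - 2) * c n ≤ (t - 2) * (3 * 2 ^ t) := by
        refine (h.trans h2).trans (le_of_eq ?_)
        rw [hpow]; ring
      exact Nat.le_of_mul_le_mul_left h3 hpos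
    · rw [Nat.card_Ico, smul_eq_mul]
      exact Nat.mul_le_mul_right _ (by omega)
  have S3 : ((∑ n ∈ Finset.Ico (2 * t + 1) (2 * t + 1 + A), c n : ℕ) : ℝ) ≤
      (A / 2 : ℝ) * (1.4 * t) := by
    rw [Finset.sum_Ico_eq_sum_range, Nat.add_sub_cancel_left]
    push_cast
    have hterm : ∀ j ∈ Finset.range A, (c (2 * t + 1 + j) : ℝ) ≤
        (A / 2 : ℝ) * ((j : ℝ) + 1 + 1)⁻¹ := by
      intro j _
      have h := H3 (2 * t + 1 + j) (by omega)
      rw [show 2 * (2 * t + 1 + j) + 3 - 4 * t = 2 * j + 5 by omega] at h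
      have h' : (2 * (j : ℝ) + 5) * c (2 * t + 1 + j) ≤ A := by exact_mod_cast h
      have hj : (0 : ℝ) ≤ j := Nat.cast_nonneg _
      have hc : (0 : ℝ) ≤ c (2 * t + 1 + j) := Nat.cast_nonneg _
      rw [← div_eq_mul_inv, div_div, le_div_iff₀ (by positivity)]
      nlinarith
    have hlog : ∑ j ∈ Finset.range A, ((j : ℝ) + 1 + 1)⁻¹ ≤ Real.log ((A + 1 : ℕ) : ℝ) := by
      have h := harmonic_le_one_add_log (A + 1)
      rw [harmonic, Finset.sum_range_succ'] at h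
      push_cast at h
      push_cast
      norm_num at h
      linarith
    have hlog2 : Real.log ((A + 1 : ℕ) : ℝ) ≤ 1.4 * t := by
      have h1 : ((A + 1 : ℕ) : ℝ) ≤ 4 ^ t := by
        have := size_bound t ht
        exact_mod_cast this
      have h2 : Real.log ((A + 1 : ℕ) : ℝ) ≤ Real.log (4 ^ t) :=
        Real.log_le_log (by positivity) h1
      rw [Real.log_pow, show (4 : ℝ) = 2 ^ 2 by norm_num, Real.log_pow] at h2
      have h3 := Real.log_two_lt_d9
      have h4 : (0 : ℝ) ≤ t := Nat.cast_nonneg _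
      refine h2.trans ?_
      push_cast
      nlinarith
    calc ∑ j ∈ Finset.range A, (c (2 * t + 1 + j) : ℝ)
        ≤ ∑ j ∈ Finset.range A, (A / 2 : ℝ) * ((j : ℝ) + 1 + 1)⁻¹ := Finset.sum_le_sum hterm
      _ = (A / 2 : ℝ) * ∑ j ∈ Finset.range A, ((j : ℝ) + 1 + 1)⁻¹ := by rw [Finset.mul_sum]
      _ ≤ (A / 2 : ℝ) * (1.4 * t) :=
          mul_le_mul_of_nonneg_left (hlog.trans hlog2) (by positivity)
  have hfin : ((∑ n ∈ Finset.Icc 1 N, c n : ℕ) : ℝ) ≤ ((3 * t ^ 2 * 2 ^ t : ℕ) : ℝ) := by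
    have h1 : ((∑ n ∈ Finset.Icc 1 N, c n : ℕ) : ℝ) ≤
        ((∑ n ∈ Finset.Ico 1 (2 * t + 1 + A), c n : ℕ) : ℝ) := by exact_mod_cast h0
    rw [hsplit] at h1
    have h2 : ((∑ n ∈ Finset.Ico 1 (t + 1), c n : ℕ) : ℝ) ≤ 6 * 2 ^ t := by exact_mod_cast S1
    have h3 : ((∑ n ∈ Finset.Ico (t + 1) (2 * t + 1), c n : ℕ) : ℝ) ≤ t * (3 * 2 ^ t) := by
      exact_mod_cast S2
    have hAr : (A : ℝ) = (t + 3) * 2 ^ (t - 1) := by rw [hA]; push_cast; ring
    have hp : (2 : ℝ) ^ t = 2 * 2 ^ (t - 1) := by exact_mod_cast hpow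
    have ht' : (3 : ℝ) ≤ t := by exact_mod_cast ht
    set P : ℝ := 2 ^ (t - 1) with hP
    have hPp : 0 < P := by positivity
    rw [hAr] at S3
    push_cast at h1 h2 h3 S3 ⊢
    rw [hp] at h2 h3 ⊢
    have h4 : (0 : ℝ) ≤ P * (t - 3) := mul_nonneg hPp.le (by linarith)
    have h5 : (0 : ℝ) ≤ P * (t - 3) * t := mul_nonneg h4 (by linarith)
    nlinarith
  exact_mod_cast hfin

end Pool.Agent.Helper27.WC
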