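import Pool.Agent.Helper93.WC.St

/-!
# Project WC (helper93), module GSU: sum of y^m/m in characteristic l
-/

set_option autoImplicit false

open Polynomial Helper62.Weber Pool.Agent.Helper93.WC

namespace Pool.Agent.Helper27.WC

variable {F : Type} [Field F] {l : ℕ} [CharP F l]

theorem choose_pred (hl : l.Prime) (k : ℕ) (hk : k < l) :
    (((l - 1).choose k : ℕ) : F) = (-1) ^ k := by
  induction k with
  | zero => simp
  | succ k ih =>
    have h1 := ih (by omega)
    have h2 : (l - 1).choose k + (l - 1).choose (k + 1) = l.choose (k + 1) := by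
      have := Nat.choose_succ_succ (l - 1) k
      rw [Nat.succ_eq_add_one, Nat.sub_add_cancel hl.one_lt.le] at this
      exact this.symm
    have h3 : ((l.choose (k + 1) : ℕ) : F) = 0 := by
      rw [CharP.cast_eq_zero_iff F l]
      exact hl.dvd_choose_self (by omega) hk
    have h4 : (((l - 1).choose k : ℕ) : F) + (((l - 1).choose (k + 1) : ℕ) : F) = 0 := by
      rw [← Nat.cast_add, h2, h3]
    rw [h1] at h4
    rw [pow_succ]
    linear_combination h4

theorem cf_cast (hl : l.Prime) (m : ℕ) (h0 : 0 < m) (hm : m < l) :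
    ((cf l m : ℤ) : F) = 1 / (m : F) := by
  have hmF : (m : F) ≠ 0 := by
    intro h
    rw [CharP.cast_eq_zero_iff F l] at h
    exact absurd (Nat.le_of_dvd h0 h) (by omega)
  obtain ⟨q, hq⟩ : l ∣ l.choose m := hl.dvd_choose_self (by omega) hm
  have hdiv : l.choose m / l = q := by rw [hq, Nat.mul_div_cancel_left _ hl.pos]
  have h1 : m * q = (l - 1).choose (m - 1) := by
    have h := Nat.add_one_mul_choose_eq (l - 1) (m - 1)
    rw [Nat.sub_add_cancel hl.one_lt.le, Nat.sub_add_cancel h0, hq] at h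
    have h' : l * (l - 1).choose (m - 1) = l * (m * q) := by rw [h]; ring
    exact (Nat.eq_of_mul_eq_mul_left hl.pos h').symm
  have h2 : (m : F) * (q : F) = (-1) ^ (m - 1) := by
    rw [← choose_pred (F := F) hl (m - 1) (by omega), ← h1]
    push_cast
    ring
  unfold cf
  rw [hdiv]
  push_cast
  rw [eq_div_iff hmF]
  have h3 : ((-1 : F) ^ (m - 1)) * (-1) ^ (m - 1) = 1 := by
    rw [← mul_pow]; simp
  calc (-1) ^ (m - 1) * (q : F) * m = (-1) ^ (m - 1) * (m * q) := by ring
    _ = 1 := by rw [h2, h3]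

theorem sT_eq (hl : l.Prime) (y : F) :
    sT l y = ∑ m ∈ Finset.Ico 1 l, y ^ m / (m : F) := by
  unfold sT
  refine Finset.sum_congr rfl fun m hm => ?_
  rw [Finset.mem_Ico] at hm
  rw [cf_cast hl m (by omega) hm.2]
  ring

/-- one term -/
def ff (l : ℕ) (y : F) (m : ℕ) : F := if Odd m ∧ ¬ l ∣ m then y ^ m / (m : F) else 0

theorem blocks (l : ℕ) (g : ℕ → F) (K : ℕ) :
    ∑ m ∈ Finset.range (2 * l * K), g m =
      ∑ i ∈ Finset.range K, ∑ s ∈ Finset.range (2 * l), g (2 * l * i + s) := by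
  induction K with
  | zero => simp
  | succ K ih => rw [Nat.mul_succ, Finset.sum_range_add, ih, Finset.sum_range_succ]

theorem cast_add (m i : ℕ) : ((2 * l * i + m : ℕ) : F) = m := by
  have : ((l : ℕ) : F) = 0 := CharP.cast_eq_zero F l
  push_cast
  rw [this]; ring

theorem cast_add' (m i : ℕ) : ((2 * l * i + (l + m) : ℕ) : F) = m := by
  have : ((l : ℕ) : F) = 0 := CharP.cast_eq_zero F l
  push_cast
  rw [this]; ring

theorem block_eq (hl : l.Prime) (ho : Odd l) (y : F) (i : ℕ) :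
    ∑ s ∈ Finset.range (2 * l), ff l y (2 * l * i + s) =
      ∑ s ∈ Finset.Ico 1 l,
        (if Odd s then y ^ (2 * l * i + s) / (s : F) else y ^ (2 * l * i + (l + s)) / (s : F)) := by
  have hl1 : 0 < l := hl.pos
  rw [show 2 * l = l + l by ring, Finset.sum_range_add, ← Finset.sum_add_distrib,
    Finset.range_eq_Ico, Finset.sum_eq_sum_Ico_succ_bot hl1]
  rw [show l + l = 2 * l by ring]
  have e0 : ff l y (2 * l * i + 0) + ff l y (2 * l * i + (l + 0)) = 0 := by
    have h1 : l ∣ 2 * l * i + 0 := ⟨2 * i, by ring⟩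
    have h2 : l ∣ 2 * l * i + (l + 0) := ⟨2 * i + 1, by ring⟩
    unfold ff
    rw [if_neg (fun h => h.2 h1), if_neg (fun h => h.2 h2), add_zero]
  rw [e0, zero_add]
  refine Finset.sum_congr rfl fun s hs => ?_
  rw [Finset.mem_Ico] at hs
  have nd : ¬ l ∣ s := fun h => absurd (Nat.le_of_dvd (by omega) h) (by omega)
  have ev : Even (2 * l * i) := ⟨l * i, by ring⟩
  have nd1 : ¬ l ∣ 2 * l * i + s := by
    rw [Nat.dvd_add_right ⟨2 * i, by ring⟩]; exact nd
  have nd2 : ¬ l ∣ 2 * l * i + (l + s) := by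
    rw [Nat.dvd_add_right ⟨2 * i, by ring⟩, Nat.dvd_add_right (dvd_refl l)]; exact nd
  unfold ff
  by_cases hsodd : Odd s
  · have o1 : Odd (2 * l * i + s) := ev.add_odd hsodd
    have o2 : ¬ Odd (2 * l * i + (l + s)) := by
      rw [Nat.not_odd_iff_even]
      exact ev.add (ho.add_odd hsodd)
    rw [if_pos ⟨o1, nd1⟩, if_neg (fun h => o2 h.1), if_pos hsodd, cast_add, add_zero]
  · have hse : Even s := Nat.not_odd_iff_even.1 hsodd
    have o1 : ¬ Odd (2 * l * i + s) := by
      rw [Nat.not_odd_iff_even]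
      exact ev.add hse
    have o2 : Odd (2 * l * i + (l + s)) := ev.add_odd (ho.add_even hse)
    rw [if_neg (fun h => o1 h.1), if_pos ⟨o2, nd2⟩, if_neg hsodd, cast_add', zero_add]

end Pool.Agent.Helper27.WC

namespace Pool.Agent.Helper27.WC

theorem cGSU : GSU := by
  intro F _ l r _ hl ho hr y
  have e1 : l * 2 ^ r = 2 * l * 2 ^ (r - 1) := by
    obtain ⟨u, rfl⟩ : ∃ u, r = u + 1 := ⟨r - 1, by omega⟩
    rw [Nat.add_sub_cancel, pow_succ]; ring
  have e2 : ∑ m ∈ (Finset.range (l * 2 ^ r)).filter (fun m => Odd m ∧ ¬ l ∣ m), y ^ m / (m : F) =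
      ∑ m ∈ Finset.range (2 * l * 2 ^ (r - 1)), ff l y m := by
    rw [Finset.sum_filter, e1]
    rfl
  rw [e2, blocks, Finset.sum_congr rfl (fun i _ => block_eq hl ho y i)]
  unfold gT
  have e3 : (1 + y ^ l) * ∑ m ∈ Finset.Ico 1 l, y ^ m / (m : F) -
      (1 - y ^ l) * ∑ m ∈ Finset.Ico 1 l, (-y) ^ m / (m : F) =
      ∑ m ∈ Finset.Ico 1 l, ((1 + y ^ l) * (y ^ m / (m : F)) - (1 - y ^ l) * ((-y) ^ m / (m : F))) := by
    rw [Finset.mul_sum, Finset.mul_sum, ← Finset.sum_sub_distrib]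
  rw [sT_eq hl, sT_eq hl, e3, Finset.sum_mul_sum, Finset.sum_comm, Finset.mul_sum]
  refine Finset.sum_congr rfl fun i _ => ?_
  rw [Finset.mul_sum]
  refine Finset.sum_congr rfl fun s hs => ?_
  by_cases hsodd : Odd s
  · rw [if_pos hsodd, hsodd.neg_pow, pow_add]
    ring
  · have hse : Even s := Nat.not_odd_iff_even.1 hsodd
    rw [if_neg hsodd, hse.neg_pow, pow_add, pow_add]
    ring

end Pool.Agent.Helper27.WC
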